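import Pool.Agent.Run7.h188.FW.Stm

/-!
# Project FW (helper188), piece NEC
-/

set_option autoImplicit false

namespace Pool.Agent.Run7.h300.FW

open Finset Polynomial Pool.Agent.H283R2.DR Pool.Agent.H789R5 Pool.Agent.Run7.h188.FW

theorem rank_le_sum (d n : ℕ) (e : ℕ → ℕ) (p : Fin n → Fin d → ℝ) :
    (rigidityMatrix (dG n d e) p).rank ≤ ∑ k ∈ range (d + 1), (n - e (k + 1)) := by
  classical
  refine (Matrix.rank_le_card_height _).trans ?_
  rw [← SimpleGraph.edgeFinset_card]
  let f : (k : ℕ) → Fin (n - e (k + 1)) → Sym2 (Fin n) := fun k j =>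
    s(⟨(j : ℕ), by omega⟩, ⟨(j : ℕ) + e (k + 1), by omega⟩)
  have hsub : (dG n d e).edgeFinset ⊆ (range (d + 1)).biUnion fun k => Finset.univ.image (f k) := by
    intro x
    induction x using Sym2.ind with
    | _ u v =>
      intro hx
      rw [SimpleGraph.mem_edgeFinset, SimpleGraph.mem_edgeSet] at hx
      obtain ⟨k, hk, hk0, h⟩ := hx
      rw [mem_biUnion]
      refine ⟨k, mem_range.2 hk, ?_⟩
      rw [mem_image]
      rcases h with h | h
      · refine ⟨⟨u, by omega⟩, mem_univ _, ?_⟩
        have : (⟨(u : ℕ) + e (k + 1), by omega⟩ : Fin n) = v := Fin.ext h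
        show s((⟨(u : ℕ), _⟩ : Fin n), (⟨(u : ℕ) + e (k + 1), _⟩ : Fin n)) = s(u, v)
        rw [this]
      · refine ⟨⟨v, by omega⟩, mem_univ _, ?_⟩
        have : (⟨(v : ℕ) + e (k + 1), by omega⟩ : Fin n) = u := Fin.ext h
        show s((⟨(v : ℕ), _⟩ : Fin n), (⟨(v : ℕ) + e (k + 1), _⟩ : Fin n)) = s(u, v)
        rw [this]
        exact Sym2.eq_swap
  calc (dG n d e).edgeFinset.card
      ≤ ((range (d + 1)).biUnion fun k => Finset.univ.image (f k)).card := card_le_card hsub
    _ ≤ ∑ k ∈ range (d + 1), (Finset.univ.image (f k)).card := card_biUnion_le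
    _ ≤ ∑ k ∈ range (d + 1), (n - e (k + 1)) := by
        refine sum_le_sum fun k _ => ?_
        refine card_image_le.trans ?_
        rw [card_univ, Fintype.card_fin]

theorem t_NEC : S_NEC := by
  intro d n e he hn hr
  obtain ⟨p, hp⟩ := exists_mg (Fin n) d
  have h1 : d + 1 ≤ e (d + 1) := he.mono.le_apply
  rw [genRigid_iff hp (by rw [Fintype.card_fin]; omega)] at hr
  have h2 := rank_add_mo (dG n d e) p
  have h3 := rank_le_sum d n e p
  rw [Fintype.card_fin] at h2
  have h4 : ∑ k ∈ range (d + 1), (n - e (k + 1)) + ∑ k ∈ range (d + 1), e (k + 1) =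
      (d + 1) * n := by
    rw [← sum_add_distrib]
    rw [sum_congr rfl (g := fun _ => n)]
    · rw [sum_const, card_range, smul_eq_mul]
    · intro k hk
      have : e (k + 1) ≤ e (d + 1) := he.mono.monotone (by
        have := mem_range.1 hk
        omega)
      omega
  rw [sum_range_succ' e (d + 1), he.e0]
  have h5 : (d + 1) * n = d * n + n := by ring
  omega

end Pool.Agent.Run7.h300.FW
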