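import Pool.Agent.Run7.h188.FW.Stm

/-!
# Project FW (helper188), pieces I1, I2, LC
-/

set_option autoImplicit false

namespace Pool.Agent.Run7.h300.FW

open Finset Polynomial Pool.Agent.Run7.h188.FW

theorem norm_ne {L : Type} [NormedField L] {κ : ℕ → L} {d : ℕ} {e : ℕ → ℕ} (hD : Dat κ d e)
    {i j : ℕ} (hij : i ≠ j) : ‖κ i‖ ≠ ‖κ j‖ := by
  intro h
  have h1 : ‖κ i * κ i‖ = ‖κ j * κ j‖ := by rw [norm_mul, norm_mul, h]
  rcases hD.sep i i j j h1 with h2 | h2
  · exact hij h2.1
  · exact hij h2.1

theorem Rp_one {L : Type} [NormedField L] {κ : ℕ → L} {z : L} {i j : ℕ} (hz : z = κ i * κ j)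
    (hi : κ i ≠ 0) (hj : κ j ≠ 0) (x : ℕ) : Rp κ z i j x = (x : L) * (κ j ^ x - κ i ^ x) := by
  unfold Rp
  rw [hz, div_self (mul_ne_zero hi hj)]
  simp

theorem t_I2 (h : S_T2) : S_I2 := by
  intro L _ _ κ d e he hD i j hij hj c c' hc hsum
  have hi0 := hD.ne i
  have hj0 := hD.ne j
  have hne : ‖κ i‖ ≠ ‖κ j‖ := norm_ne hD hij.ne
  rcases lt_or_gt_of_ne hne with hlt | hgt
  · refine h L κ d e he hD (κ i * κ j) i j (by omega) hj hij.ne hlt rfl ?_ c c' hc ?_
    · rw [div_self (mul_ne_zero hi0 hj0)]
      simp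
    · intro k hk
      rw [Rp_one rfl hi0 hj0]
      exact hsum k hk
  · have hT : ∀ l x, T κ (κ i * κ j) (Equiv.swap i j l) x = T κ (κ i * κ j) l x := by
      intro l x
      unfold T
      by_cases h1 : l = i
      · rw [h1, Equiv.swap_apply_left, mul_div_cancel_right₀ _ hj0, mul_div_cancel_left₀ _ hi0]
        ring
      · by_cases h2 : l = j
        · rw [h2, Equiv.swap_apply_right, mul_div_cancel_right₀ _ hj0,
            mul_div_cancel_left₀ _ hi0]
          ring
        · rw [Equiv.swap_apply_of_ne_of_ne h1 h2]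
    have h1 := h L κ d e he hD (κ j * κ i) j i hj (by omega) hij.ne' hgt rfl ?_
      (fun l => c (Equiv.swap i j l)) (-c') ?_ ?_
    · refine ⟨neg_eq_zero.1 h1.1, fun l hl => ?_⟩
      have h2 := h1.2 (Equiv.swap i j l) ?_
      · simpa using h2
      · rw [Equiv.swap_apply_def]
        split_ifs <;> omega
    · rw [div_self (mul_ne_zero hj0 hi0)]
      simp
    · simpa using hc
    · intro k hk
      rw [Rp_one rfl hj0 hi0, mul_comm (κ j) (κ i)]
      refine Eq.trans ?_ (hsum k hk)
      congr 1
      · refine Finset.sum_bij (fun l _ => Equiv.swap i j l) ?_ ?_ ?_ ?_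
        · intro l hl
          rw [mem_range] at *
          rw [Equiv.swap_apply_def]
          split_ifs <;> omega
        · intro a _ b _ hab
          exact (Equiv.swap i j).injective hab
        · intro b hb
          refine ⟨Equiv.swap i j b, ?_, by simp⟩
          rw [mem_range] at *
          rw [Equiv.swap_apply_def]
          split_ifs <;> omega
        · intro l _
          rw [hT]
      · ring

theorem T_sub {L : Type} [NormedField L] {κ : ℕ → L} {z : L} {i j : ℕ}
    (hi : κ i ≠ 0) (hj : κ j ≠ 0) (x : ℕ) :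
    T κ z i x - T κ z j x = (z / (κ i * κ j) - 1) * Rp κ z i j x := by
  have h1 : z / κ i = z / (κ i * κ j) * κ j := by field_simp
  have h2 : z / κ j = z / (κ i * κ j) * κ i := by field_simp
  have h3 := geom_sum_mul (z / (κ i * κ j)) x
  unfold T Rp
  rw [h1, h2, mul_pow, mul_pow]
  calc _ = ((z / (κ i * κ j)) ^ x - 1) * (κ j ^ x - κ i ^ x) := by ring
    _ = _ := by rw [← h3]; ring

theorem t_I1 (hNT : S_NT) (hT1 : S_T1) (hT2 : S_T2) : S_I1 := by
  intro L _ _ κ d e he hD z hz c hsum
  by_cases hA : ∀ i j, i ≤ d → j ≤ d → i ≠ j → ‖z‖ ≠ ‖κ i * κ j‖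
  · exact hNT L κ d e he hD z hA c (fun k hk => hsum k (by omega))
  · push Not at hA
    have hB : ∃ i j, i ≤ d ∧ j ≤ d ∧ i ≠ j ∧ ‖κ i‖ < ‖κ j‖ ∧ ‖z‖ = ‖κ i * κ j‖ := by
      obtain ⟨i, j, hi, hj, hij, h⟩ := hA
      rcases lt_or_gt_of_ne (norm_ne hD hij) with h1 | h1
      · exact ⟨i, j, hi, hj, hij, h1, h⟩
      · exact ⟨j, i, hj, hi, hij.symm, h1, by rw [h, mul_comm]⟩
    obtain ⟨i, j, hi, hj, hij, hlt, hn⟩ := hB
    have hi0 := hD.ne i
    have hj0 := hD.ne j
    have hρ : ‖z / (κ i * κ j)‖ = 1 := by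
      rw [norm_div, hn, div_self]
      exact (norm_pos_iff.2 (mul_ne_zero hi0 hj0)).ne'
    have hle : ‖z / (κ i * κ j) - 1‖ ≤ 1 := by
      rw [sub_eq_add_neg]
      refine (IsUltrametricDist.norm_add_le_max _ _).trans ?_
      rw [hρ, norm_neg, norm_one, max_self]
    rcases hle.eq_or_lt with h1 | h1
    · exact hT1 L κ d e he hD z i j hi hj hij hlt hn h1 c hsum
    · have hne : z / (κ i * κ j) - 1 ≠ 0 := by
        intro h0
        have h2 : z = κ i * κ j := by
          have := sub_eq_zero.1 h0
          rwa [div_eq_one_iff_eq (mul_ne_zero hi0 hj0)] at this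
        rcases lt_or_gt_of_ne hij with h3 | h3
        · exact hz i j h3 hj h2
        · exact hz j i h3 hi (by rw [h2, mul_comm])
      have key := hT2 L κ d e he hD z i j hi hj hij hlt hn h1
        (fun l => c l - (if l = i then c i else 0) + (if l = j then c i else 0))
        (c i * (z / (κ i * κ j) - 1)) (by simp [hij]) ?_
      · obtain ⟨k1, k2⟩ := key
        have hci : c i = 0 := (mul_eq_zero.1 k1).resolve_right hne
        intro l hl
        have := k2 l hl
        simpa [hci] using this
      · intro k hk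
        rw [mul_assoc, ← T_sub hi0 hj0]
        refine Eq.trans ?_ (hsum k hk)
        have h5 : ∀ l, (c l - (if l = i then c i else 0) + (if l = j then c i else 0)) *
            T κ z l (e k) = c l * T κ z l (e k) - (if l = i then c i * T κ z i (e k) else 0) +
              (if l = j then c i * T κ z j (e k) else 0) := by
          intro l
          by_cases ha : l = i
          · subst ha
            simp [hij]
          · by_cases hb : l = j
            · subst hb
              simp [ha]
              ring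
            · simp [ha, hb]
        rw [sum_congr rfl fun l _ => h5 l, sum_add_distrib, sum_sub_distrib, sum_ite_eq',
          sum_ite_eq', if_pos (mem_range.2 (by omega)), if_pos (mem_range.2 (by omega))]
        ring

theorem t_LC (hNT : S_NT) : S_LC := by
  intro L _ _ κ d e he hD c hsum
  have hD' : Dat (fun i => (κ i)⁻¹) d e := by
    refine ⟨hD.num, hD.two, fun i => inv_ne_zero (hD.ne i), fun i j k l h => ?_⟩
    simp only [← mul_inv, norm_inv, inv_inj] at h
    exact hD.sep i j k l h
  refine hNT L (fun i => (κ i)⁻¹) d e he hD' 0 ?_ c ?_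
  · intro i j _ _ _ h
    rw [norm_zero] at h
    exact mul_ne_zero (inv_ne_zero (hD.ne i)) (inv_ne_zero (hD.ne j)) (norm_eq_zero.1 h.symm)
  · intro k hk
    rcases Nat.eq_zero_or_pos k with h0 | h0
    · subst h0
      have h1 := hsum 0 (Nat.zero_le _)
      rw [he.e0] at *
      simp only [pow_zero, mul_one] at h1
      simp only [T, pow_zero]
      rw [← sum_mul, h1, zero_mul]
    · have h1 : e k ≠ 0 := by
        have := he.mono h0
        rw [he.e0] at this
        omega
      refine Eq.trans ?_ (hsum k hk)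
      refine sum_congr rfl fun i _ => ?_
      simp only [T, zero_div, zero_pow h1, add_zero]

end Pool.Agent.Run7.h300.FW
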