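import Pool.Agent.Run7.h188.FW.Stm

/-!
# Project FW (helper188), pieces PAD and DAT
-/

set_option autoImplicit false

namespace Pool.Agent.Run7.h300.FW

open Finset Polynomial Pool.Agent.Run7.h188.FW

theorem t_PAD : S_PAD := by
  intro q hq
  haveI : Fact q.Prime := ⟨hq⟩
  have key : ∀ m : ℕ, ‖(m : PadicAlgCl q)‖ = ‖(m : ℚ_[q])‖ := by
    intro m
    rw [← map_natCast (algebraMap ℚ_[q] (PadicAlgCl q)) m]
    exact PadicAlgCl.norm_extends q _
  refine ⟨PadicAlgCl q, inferInstance, inferInstance, inferInstance, inferInstance, ?_, ?_⟩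
  · rw [key]
    exact Padic.norm_p_lt_one
  · intro m hm
    rw [key, Padic.norm_natCast_eq_one_iff]
    exact (Nat.Prime.coprime_iff_not_dvd hq).2 hm

theorem pow_aux {a b c e : ℕ} (h1 : a ≤ b) (h3 : b < e) :
    2 ^ a + 2 ^ b < 2 ^ c + 2 ^ e := by
  have h4 : 2 ^ a ≤ 2 ^ b := Nat.pow_le_pow_right (by norm_num) h1
  have h5 : 2 ^ (b + 1) ≤ 2 ^ e := Nat.pow_le_pow_right (by norm_num) h3
  have h6 : 0 < 2 ^ c := by positivity
  rw [pow_succ] at h5
  omega

theorem pow_aux2 {i j k l : ℕ} (h1 : i ≤ j) (h2 : k ≤ l) (h : 2 ^ i + 2 ^ j = 2 ^ k + 2 ^ l) :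
    i = k ∧ j = l := by
  have hjl : j = l := by
    rcases lt_trichotomy j l with h3 | h3 | h3
    · exact absurd h (pow_aux h1 h3).ne
    · exact h3
    · exact absurd h.symm (pow_aux h2 h3).ne
  subst hjl
  refine ⟨Nat.pow_right_injective le_rfl ?_, rfl⟩
  exact Nat.add_right_cancel h

theorem pow_aux3 {i j k l : ℕ} (h : 2 ^ i + 2 ^ j = 2 ^ k + 2 ^ l) :
    (i = k ∧ j = l) ∨ (i = l ∧ j = k) := by
  rcases le_total i j with h1 | h1 <;> rcases le_total k l with h2 | h2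
  · exact Or.inl (pow_aux2 h1 h2 h)
  · exact Or.inr (pow_aux2 h1 h2 (by omega))
  · have := pow_aux2 h1 h2 (by omega)
    exact Or.inr ⟨this.2, this.1⟩
  · have := pow_aux2 h1 h2 (by omega)
    exact Or.inl ⟨this.2, this.1⟩

theorem t_DAT : S_DAT := by
  intro L _ _ q d e hq h2 he hlt hm
  have hq0 : (q : L) ≠ 0 := by exact_mod_cast hq.ne_zero
  refine ⟨?_, ?_, ?_, ?_⟩
  · intro m h0 h1
    exact hm m (Nat.not_dvd_of_pos_of_lt h0 (by omega))
  · have := hm 2 (Nat.not_dvd_of_pos_of_lt (by norm_num) h2)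
    simpa using this
  · intro i
    exact pow_ne_zero _ hq0
  · intro i j k l h
    unfold nod at h
    rw [← pow_add, ← pow_add, norm_pow, norm_pow] at h
    have h3 : 0 < ‖(q : L)‖ := norm_pos_iff.2 hq0
    have h4 := pow_right_injective₀ h3 hlt.ne h
    have hp : ∀ a : ℕ, 0 < 2 ^ a := fun a => by positivity
    have h5 := hp i
    have h6 := hp j
    have h7 := hp k
    have h8 := hp l
    exact pow_aux3 (by omega)

end Pool.Agent.Run7.h300.FW
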